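import Mathlib
import Pool.Agent.N437.QR.Stm

/-!
# QR/DIAG: diagonal argument
-/

set_option autoImplicit false

namespace Pool.Agent.N296.QR

open Filter Topology Pool.Agent.N437.QR

theorem t_DIAG : S_DIAG := by
  classical
  intro A F hA h
  let P : ℕ → ℕ → Prop := fun m n => ∃ S : A n, ∀ j < m, |F j n S| < 1 / ((m : ℝ) + 1)
  have hP0 : ∀ n, P 0 n := fun n => ⟨(hA n).some, fun j hj => absurd hj (Nat.not_lt_zero j)⟩
  let M : ℕ → ℕ := fun n => Nat.findGreatest (fun m => P m n) n
  have hM : ∀ n, P (M n) n := fun n =>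
    Nat.findGreatest_spec (P := fun m => P m n) (Nat.zero_le n) (hP0 n)
  choose S hS using hM
  have hge : ∀ m0 : ℕ, ∀ᶠ n in atTop, m0 ≤ M n := by
    intro m0
    have h1 := h m0 (1 / ((m0 : ℝ) + 1)) (by positivity)
    filter_upwards [h1, eventually_ge_atTop m0] with n hn hmn
    exact Nat.le_findGreatest (P := fun m => P m n) hmn hn
  refine ⟨S, fun j => ?_⟩
  rw [Metric.tendsto_atTop]
  intro ε hε
  obtain ⟨k, hk⟩ := exists_nat_one_div_lt hε
  have h2 := hge (max (j + 1) k)
  obtain ⟨N, hN⟩ := eventually_atTop.1 h2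
  refine ⟨N, fun n hn => ?_⟩
  have h3 := hN n hn
  have hj : j < M n := lt_of_lt_of_le (Nat.lt_succ_self j) ((le_max_left _ _).trans h3)
  have hk' : k ≤ M n := (le_max_right _ _).trans h3
  rw [dist_zero_right, Real.norm_eq_abs]
  refine (hS n j hj).trans (lt_of_le_of_lt ?_ hk)
  apply one_div_le_one_div_of_le (by positivity)
  have : (k : ℝ) ≤ M n := by exact_mod_cast hk'
  linarith

end Pool.Agent.N296.QR
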